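import Pool.Agent.Y683.AA.TWc

/-!
Twists of Hecke characters of infinity type `(2 m - 1, 0)`, given by an imprimitive character, by all
characters of finite order.
-/

set_option autoImplicit false

open Complex Filter Topology

namespace Pool.Agent.X284.HB

open Pool.Agent.W192.HK Pool.Agent.Y683.AA

variable {R : Subring ℂ} {ω : ℂ}

/-- `t χ` is a primitive character of type `(2 m - 1, 0)` inducing `Ψ σ(χ)` -/
def TwM (m : ℕ) (σ : ℂ →+* ℂ) (G : Ideal R) (Ψ : Ideal R → ℂ)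
    (t : (Ideal R → ℂ) → Ideal R → ℂ) : Prop :=
  ∀ (c : Ideal R) (χ : Ideal R → ℂ), HC 0 c χ →
    ∃ q : Ideal R, G * c ≤ q ∧ HC (2 * m - 1) q (t χ) ∧ Agr σ (t χ) Ψ χ

lemma agr_iff' {n : ℕ} {f c : Ideal R} {ψ χ : Ideal R → ℂ} (hψ : Imp n f ψ)
    (hχ : HC 0 c χ) {I : Ideal R} (hI0 : I ≠ ⊥) (hI : IsCoprime I (f * c)) :
    ψ I * χ I ≠ 0 := by
  refine mul_ne_zero ?_ ?_
  · rw [Ne, hψ.zero]
    push Not
    exact ⟨hI0, IsCoprime.of_mul_right_left hI⟩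
  · rw [Ne, hχ.zero]
    push Not
    exact ⟨hI0, IsCoprime.of_mul_right_right hI⟩

/-- existence of the twists, with the conductor -/
theorem exists_twd' (hb : H_BASIC) (hcls : H_CLS) (hR : QR R ω) (σ : ℂ →+* ℂ) {n : ℕ}
    {f c : Ideal R} {ψ χ : Ideal R → ℂ} (hψ : Imp n f ψ) (hχ : HC 0 c χ) :
    ∃ (q : Ideal R) (θ : Ideal R → ℂ), f * c ≤ q ∧ HC n q θ ∧ Agr σ θ ψ χ := by
  have := hR.ded
  have h : Imp n (f * c) (fun I => ψ I * σ (χ I)) := by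
    refine ⟨mul_ne_zero hψ.ne hχ.ne, fun I J => ?_, fun I => ?_, fun α hα h1 => ?_⟩
    · rw [hψ.mul, hχ.mul, map_mul]
      ring
    · rw [mul_eq_zero, map_eq_zero, hψ.zero, hχ.zero]
      constructor
      · rintro ((h | h) | (h | h))
        · exact Or.inl h
        · exact Or.inr fun h' => h (IsCoprime.of_mul_right_left h')
        · exact Or.inl h
        · exact Or.inr fun h' => h (IsCoprime.of_mul_right_right h')
      · rintro (h | h)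
        · exact Or.inl (Or.inl h)
        · by_contra hcon
          push Not at hcon
          exact h (IsCoprime.mul_right hcon.1.2 hcon.2.2)
    · rw [hψ.princ α hα (Ideal.mul_le_left h1), hχ.princ α hα (Ideal.mul_le_right h1), pow_zero,
        map_one, mul_one]
  obtain ⟨q, θ, h0, h1, h2⟩ := exists_ind hb hcls hR h
  refine ⟨q, θ, h0, h1, fun I hI => h2 I ?_⟩
  have h3 := mul_ne_zero_iff.1 hI
  exact mul_ne_zero h3.1 (by rw [Ne, map_eq_zero]; exact h3.2)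

/-- the twist is unique -/
theorem tw_unique' (hb : H_BASIC) (hfp : H_FP) (hR : QR R ω) {σ : ℂ →+* ℂ} {n : ℕ}
    {f c q q' : Ideal R} {ψ χ θ θ' : Ideal R → ℂ} (hψ : Imp n f ψ) (hχ : HC 0 c χ)
    (hθ : HC n q θ) (hθ' : HC n q' θ') (h : Agr σ θ ψ χ) (h' : Agr σ θ' ψ χ) : θ = θ' := by
  have := hR.ded
  refine hc_ext hb hfp hR hθ hθ' (G := f * c) (mul_ne_zero hψ.ne hχ.ne) fun I hI0 hI => ?_
  have h1 := agr_iff' hψ hχ hI0 hI
  rw [h I h1, h' I h1]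

/-- twisting is injective -/
theorem tw_injective' (hb : H_BASIC) (hfp : H_FP) (hR : QR R ω) {σ : ℂ →+* ℂ} {n : ℕ}
    {f c c' : Ideal R} {ψ χ χ' θ : Ideal R → ℂ} (hψ : Imp n f ψ) (hχ : HC 0 c χ)
    (hχ' : HC 0 c' χ') (h : Agr σ θ ψ χ) (h' : Agr σ θ ψ χ') : χ = χ' := by
  have := hR.ded
  refine hc_ext hb hfp hR hχ hχ' (G := (f * c) * (f * c'))
    (mul_ne_zero (mul_ne_zero hψ.ne hχ.ne) (mul_ne_zero hψ.ne hχ'.ne)) fun I hI0 hI => ?_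
  have h1 := agr_iff' hψ hχ hI0 (IsCoprime.of_mul_right_left hI)
  have h2 := agr_iff' hψ hχ' hI0 (IsCoprime.of_mul_right_right hI)
  have h3 : ψ I * σ (χ I) = ψ I * σ (χ' I) := by rw [← h I h1, ← h' I h2]
  exact σ.injective (mul_left_cancel₀ (mul_ne_zero_iff.1 h1).1 h3)

theorem tw_sum_leM (hb : H_BASIC) (hcls : H_CLS) (hfp : H_FP) (hR : QR R ω) {C0 : ℝ}
    (hC : IdCount R C0) {m : ℕ} {σ : ℂ →+* ℂ} {f : Ideal R} {ψ : Ideal R → ℂ}
    {t : (Ideal R → ℂ) → Ideal R → ℂ} (hψ : Imp (2 * m - 1) f ψ) (ht : TwM m σ f ψ t)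
    (o : (Ideal R → ℂ) → ℕ) (X : ℕ) :
    ∑ᶠ χ ∈ Hk R 0 X, o (t χ) ≤ ∑ᶠ θ ∈ Hk R m (nn f * X), o θ := by
  have := hR.ded
  refine sum_inj (hk_finite hb hcls hfp hR hC 0 X) (hk_finite hb hcls hfp hR hC m _) t ?_ ?_ o
  · rintro χ ⟨c, hχ, hc⟩
    obtain ⟨q, h1, h2, -⟩ := ht c χ hχ
    refine ⟨q, h2, ?_⟩
    calc nn q ≤ nn (f * c) := nn_le_of_le hb hR (mul_ne_zero hψ.ne hχ.ne) h1
      _ = nn f * nn c := nn_mul hb hR f c
      _ ≤ nn f * X := Nat.mul_le_mul_left _ hc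
  · rintro χ ⟨c, hχ, hc⟩ χ' ⟨c', hχ', hc'⟩ he
    obtain ⟨q, -, -, h3⟩ := ht c χ hχ
    obtain ⟨q', -, -, h3'⟩ := ht c' χ' hχ'
    rw [← he] at h3'
    exact tw_injective' hb hfp hR hψ hχ hχ' h3 h3'

theorem tw_sum_dvM (hb : H_BASIC) (hcls : H_CLS) (hfp : H_FP) (hR : QR R ω) {C0 : ℝ}
    (hC : IdCount R C0) {m : ℕ} {σ : ℂ →+* ℂ} {f : Ideal R} {ψ : Ideal R → ℂ}
    {t : (Ideal R → ℂ) → Ideal R → ℂ} (hψ : Imp (2 * m - 1) f ψ) (ht : TwM m σ f ψ t)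
    (o : (Ideal R → ℂ) → ℕ)
    {q : Ideal R} (hq : q ≠ ⊥) : ∑ᶠ χ ∈ Dv 0 q, o (t χ) ≤ ∑ᶠ θ ∈ Dv m (q * f), o θ := by
  have := hR.ded
  have hqf : q * f ≠ ⊥ := mul_ne_zero hq hψ.ne
  refine sum_inj ((hk_finite hb hcls hfp hR hC 0 _).subset (dv_subset hb hR 0 hq le_rfl))
    ((hk_finite hb hcls hfp hR hC m _).subset (dv_subset hb hR m hqf le_rfl)) t ?_ ?_ o
  · rintro χ ⟨c, hχ, hc⟩
    obtain ⟨g, h1, h2, -⟩ := ht c χ hχ
    refine ⟨g, h2, le_trans ?_ h1⟩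
    rw [mul_comm q f]
    exact Ideal.mul_mono le_rfl hc
  · rintro χ ⟨c, hχ, hc⟩ χ' ⟨c', hχ', hc'⟩ he
    obtain ⟨q, -, -, h3⟩ := ht c χ hχ
    obtain ⟨q', -, -, h3'⟩ := ht c' χ' hχ'
    rw [← he] at h3'
    exact tw_injective' hb hfp hR hψ hχ hχ' h3 h3'

/-- **(A)** for the twists of one character of type `(2 m - 1, 0)` -/
theorem tw_avgM (hb : H_BASIC) (hcls : H_CLS) (hfp : H_FP) (hdivr : H_DIVR) (hR : QR R ω)
    {C0 : ℝ} (hC : IdCount R C0) {K : ℝ} {o : ℕ → (Ideal R → ℂ) → ℕ} (ho : GHk R K o)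
    (m : ℕ) (hm : 1 ≤ m) :
    ∃ C c : ℝ, 0 < C ∧ 0 < c ∧ ∀ (σ : ℂ →+* ℂ) (f : Ideal R) (ψ : Ideal R → ℂ)
      (t : (Ideal R → ℂ) → Ideal R → ℂ), Imp (2 * m - 1) f ψ → TwM m σ f ψ t → ∀ X : ℕ, 1 ≤ X →
        ((∑ᶠ χ ∈ Hk R 0 X, o m (t χ) : ℕ) : ℝ) ≤
          C * (nn f : ℝ) ^ 3 * Real.exp (-c * cr X) * (Set.ncard (Hk R 0 X) : ℝ) := by
  classical
  obtain ⟨C1, c1, hC1, hc1, h1⟩ := hecke_sum hb hcls hfp hdivr hR hC ho (ε := 1 / 2) (by norm_num)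
  obtain ⟨C, c, hC', hc, h2⟩ := hk_absorb hb hcls hfp hR hC hC1 hc1
  have hK := ho.pos
  have hm1 : (1 : ℝ) ≤ m := by exact_mod_cast hm
  have hlm : 0 ≤ Real.log m := Real.log_nonneg hm1
  obtain ⟨B, hB⟩ : ∃ B : ℝ, B = K * (1 + 3 * Real.log m) * Real.exp (c * cr (m ^ 2)) := ⟨_, rfl⟩
  have hB0 : 0 < B := by rw [hB]; positivity
  refine ⟨C + B, c, by positivity, hc, fun σ f ψ t hψ ht X hX => ?_⟩
  have hN := nn_pos hb hR hψ.ne
  have hNX : 1 ≤ nn f * X := Nat.one_le_iff_ne_zero.2 (by positivity)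
  have hN1 : (1 : ℝ) ≤ nn f := by exact_mod_cast hN
  have hX1 : (1 : ℝ) ≤ X := by exact_mod_cast hX
  have hlog : 0 ≤ Real.log X := Real.log_nonneg hX1
  have hcard : (0 : ℝ) ≤ (Set.ncard (Hk R 0 X) : ℝ) := Nat.cast_nonneg _
  have hE : 0 < Real.exp (-c * cr X) := Real.exp_pos _
  rcases le_or_gt (m : ℝ) (((nn f * X : ℕ) : ℝ) ^ (1 - (1 / 2 : ℝ))) with hcase | hcase
  · rcases h2 0 X hX with h3 | h3
    · rw [h3]
      simp
    have h4 := h1 (nn f * X) m hNX hm hcase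
    have h5 : ((∑ᶠ χ ∈ Hk R 0 X, o m (t χ) : ℕ) : ℝ) ≤
        ((∑ᶠ θ ∈ Hk R m (nn f * X), o m θ : ℕ) : ℝ) := by
      exact_mod_cast tw_sum_leM hb hcls hfp hR hC hψ ht (o m) X
    have h6 : 1 + Real.log ((nn f * X : ℕ) : ℝ) ≤ nn f * (1 + Real.log X) := by
      rw [Nat.cast_mul, Real.log_mul (by positivity) (by positivity)]
      have h7 := Real.log_le_sub_one_of_pos (show (0 : ℝ) < nn f by linarith)
      nlinarith
    have h8 : Real.exp (-c1 * cr (nn f * X)) ≤ Real.exp (-c1 * cr X) := by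
      refine Real.exp_le_exp.2 ?_
      have := cr_mono hX (Nat.le_mul_of_pos_left X hN)
      nlinarith
    have hlog2 : 0 ≤ 1 + Real.log ((nn f * X : ℕ) : ℝ) := by
      have := Real.log_natCast_nonneg (nn f * X)
      linarith
    calc ((∑ᶠ χ ∈ Hk R 0 X, o m (t χ) : ℕ) : ℝ) ≤ _ := h5
      _ ≤ _ := h4
      _ ≤ C1 * ((nn f * X : ℕ) : ℝ) ^ 2 * (nn f * (1 + Real.log X)) * Real.exp (-c1 * cr X) := by
          gcongr
      _ = (nn f : ℝ) ^ 3 * (C1 * (X : ℝ) ^ 2 * (1 + Real.log X) * Real.exp (-c1 * cr X)) := by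
          rw [Nat.cast_mul]
          ring
      _ ≤ (nn f : ℝ) ^ 3 * (C * Real.exp (-c * cr X) * (Set.ncard (Hk R 0 X) : ℝ)) :=
          mul_le_mul_of_nonneg_left h3 (by positivity)
      _ = C * (nn f : ℝ) ^ 3 * Real.exp (-c * cr X) * (Set.ncard (Hk R 0 X) : ℝ) := by ring
      _ ≤ (C + B) * (nn f : ℝ) ^ 3 * Real.exp (-c * cr X) * (Set.ncard (Hk R 0 X) : ℝ) := by
          gcongr
          linarith
  · -- the small `X`
    have hlt : ((nn f * X : ℕ) : ℝ) < (m : ℝ) ^ 2 := by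
      have h3 : (0 : ℝ) ≤ ((nn f * X : ℕ) : ℝ) := Nat.cast_nonneg _
      have h4 : ((nn f * X : ℕ) : ℝ) = (((nn f * X : ℕ) : ℝ) ^ (1 - (1 / 2 : ℝ))) ^ 2 := by
        rw [← Real.rpow_natCast, ← Real.rpow_mul h3]
        norm_num
      rw [h4]
      exact pow_lt_pow_left₀ hcase (Real.rpow_nonneg h3 _) two_ne_zero
    have hfin := hk_finite hb hcls hfp hR hC 0 X
    rw [finsum_mem_eq_finite_toFinset_sum _ hfin]
    have hterm : ∀ χ ∈ hfin.toFinset, (o m (t χ) : ℝ) ≤ K * (1 + 3 * Real.log m) := by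
      intro χ hχ
      rw [Set.Finite.mem_toFinset] at hχ
      obtain ⟨c', hχ', hc'⟩ := hχ
      obtain ⟨q, q1, q2, -⟩ := ht c' χ hχ'
      have hq : nn q ≤ nn f * X := by
        have := hR.ded
        calc nn q ≤ nn (f * c') := nn_le_of_le hb hR (mul_ne_zero hψ.ne hχ'.ne) q1
          _ = nn f * nn c' := nn_mul hb hR f c'
          _ ≤ nn f * X := Nat.mul_le_mul_left _ hc'
      have hq1 : (1 : ℝ) ≤ nn q := by exact_mod_cast nn_pos hb hR q2.ne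
      have hq2 : (nn q : ℝ) ≤ (m : ℝ) ^ 2 := by
        have : (nn q : ℝ) ≤ ((nn f * X : ℕ) : ℝ) := by exact_mod_cast hq
        linarith
      have hlq : Real.log (nm q) ≤ 2 * Real.log m := by
        rw [nm_eq]
        have := Real.log_le_log (by linarith) hq2
        rw [Real.log_pow] at this
        simpa using this
      refine (ho.bd m q (t χ) hm q2).trans ?_
      refine mul_le_mul_of_nonneg_left ?_ hK.le
      linarith
    have hcr : cr X ≤ cr (m ^ 2) := by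
      refine cr_mono hX ?_
      have h9 : (X : ℝ) ≤ ((m ^ 2 : ℕ) : ℝ) := by
        have h10 : (X : ℝ) ≤ ((nn f * X : ℕ) : ℝ) := by
          exact_mod_cast Nat.le_mul_of_pos_left X hN
        push_cast
        push_cast at hlt h10
        linarith
      exact_mod_cast h9
    have hexp : K * (1 + 3 * Real.log m) ≤ B * Real.exp (-c * cr X) := by
      rw [hB, mul_assoc, ← Real.exp_add]
      have h11 : 0 ≤ c * cr (m ^ 2) + -c * cr X := by nlinarith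
      have h12 := Real.one_le_exp h11
      exact le_mul_of_one_le_right (by positivity) h12
    push_cast
    calc ∑ χ ∈ hfin.toFinset, (o m (t χ) : ℝ) ≤ ∑ χ ∈ hfin.toFinset, K * (1 + 3 * Real.log m) :=
          Finset.sum_le_sum hterm
      _ = (Set.ncard (Hk R 0 X) : ℝ) * (K * (1 + 3 * Real.log m)) := by
          rw [Finset.sum_const, nsmul_eq_mul, Set.ncard_eq_toFinset_card _ hfin]
      _ ≤ (Set.ncard (Hk R 0 X) : ℝ) * (B * Real.exp (-c * cr X)) :=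
          mul_le_mul_of_nonneg_left hexp hcard
      _ = B * 1 ^ 3 * Real.exp (-c * cr X) * (Set.ncard (Hk R 0 X) : ℝ) := by ring
      _ ≤ (C + B) * (nn f : ℝ) ^ 3 * Real.exp (-c * cr X) * (Set.ncard (Hk R 0 X) : ℝ) := by
          gcongr
          linarith

lemma bnd_leM {ε : ℝ} (hε : 0 < ε) (hε1 : ε ≤ 1 / 3) {m : ℕ} (hm : 1 ≤ m) {x : ℝ} (hx : 1 ≤ x) :
    bnd ε m x ≤ m * bnd ε 1 x := by
  have hm1 : (1 : ℝ) ≤ m := by exact_mod_cast hm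
  have hx0 : 0 < x := by linarith
  unfold bnd
  rw [Nat.cast_one, one_mul, Real.mul_rpow (by linarith) hx0.le,
    Real.mul_rpow (by linarith) hx0.le]
  have h1 : (1 : ℝ) ≤ (m : ℝ) ^ (1 / 2 : ℝ) := Real.one_le_rpow hm1 (by norm_num)
  have h2 : 0 ≤ (m : ℝ) ^ ε := Real.rpow_nonneg (by linarith) _
  have h3 : 0 ≤ x ^ ε := Real.rpow_nonneg hx0.le _
  have h4 : 0 ≤ x ^ (2 / 3 : ℝ) := Real.rpow_nonneg hx0.le _
  have h5 : 0 ≤ x ^ (1 / 2 : ℝ) := Real.rpow_nonneg hx0.le _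
  have h6 : (m : ℝ) ^ ε * (m : ℝ) ^ (1 / 2 : ℝ) ≤ m := by
    rw [← Real.rpow_add (by linarith)]
    calc (m : ℝ) ^ (ε + 1 / 2) ≤ (m : ℝ) ^ (1 : ℝ) :=
          Real.rpow_le_rpow_of_exponent_le hm1 (by linarith)
      _ = m := Real.rpow_one _
  calc (m : ℝ) ^ ε * x ^ ε * (x ^ (2 / 3 : ℝ) + (m : ℝ) ^ (1 / 2 : ℝ) * x ^ (1 / 2 : ℝ)) ≤
      (m : ℝ) ^ ε * x ^ ε *
        ((m : ℝ) ^ (1 / 2 : ℝ) * x ^ (2 / 3 : ℝ) + (m : ℝ) ^ (1 / 2 : ℝ) * x ^ (1 / 2 : ℝ)) := by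
        gcongr
        exact le_mul_of_one_le_left h4 h1
    _ = ((m : ℝ) ^ ε * (m : ℝ) ^ (1 / 2 : ℝ)) * (x ^ ε * (x ^ (2 / 3 : ℝ) + x ^ (1 / 2 : ℝ))) := by
        ring
    _ ≤ _ := by gcongr

/-- **(B)** for the twists of one character of type `(2 m - 1, 0)` -/
theorem tw_pwM (hb : H_BASIC) (hcls : H_CLS) (hfp : H_FP) (hdivr : H_DIVR) (hR : QR R ω)
    {C0 : ℝ} (hC : IdCount R C0) {K : ℝ} {o : ℕ → (Ideal R → ℂ) → ℕ} (ho : GHk R K o) {ε : ℝ}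
    (hε : 0 < ε) (hε1 : ε ≤ 1 / 3) (m : ℕ) (hm : 1 ≤ m) :
    ∃ C c : ℝ, 0 < C ∧ 0 < c ∧ ∀ (σ : ℂ →+* ℂ) (f : Ideal R) (ψ : Ideal R → ℂ)
      (t : (Ideal R → ℂ) → Ideal R → ℂ), Imp (2 * m - 1) f ψ → TwM m σ f ψ t → ∀ X : ℕ, 1 ≤ X →
        (Bdt X (C * (nn f : ℝ)) ε (fun χ => o m (t χ))).Finite ∧
        ((Bdt X (C * (nn f : ℝ)) ε (fun χ => o m (t χ))).ncard : ℝ) ≤
          C * (nn f : ℝ) * X * Real.exp (-c * cr X) := by
  classical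
  have hm1 : (1 : ℝ) ≤ m := by exact_mod_cast hm
  obtain ⟨C, c, hC', hc, h1⟩ := pw_main hb hcls hfp hdivr hR hC ho hε
  refine ⟨2 * m * C, c, by positivity, hc, fun σ f ψ t hψ ht X hX => ?_⟩
  have := hR.ded
  have hN := nn_pos hb hR hψ.ne
  have hN1 : (1 : ℝ) ≤ nn f := by exact_mod_cast hN
  have hNX : 1 ≤ nn f * X := Nat.one_le_iff_ne_zero.2 (by positivity)
  obtain ⟨h2, h3⟩ := h1 (nn f * X) hNX
  set S : Set (Ideal R) := {q : Ideal R | q ≠ ⊥ ∧ nn q ≤ nn f * X ∧ ∃ m : ℕ, 1 ≤ m ∧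
        C * bnd ε m (nm q) < ((∑ᶠ θ ∈ Dv m q, o m θ : ℕ) : ℝ)} with hS
  set B := Bdt X (2 * m * C * (nn f : ℝ)) ε (fun χ => o m (t χ)) with hB
  have hmaps : Set.MapsTo (fun q : Ideal R => q * f) B S := by
    rintro q ⟨hq, hqX, hlt⟩
    have hqf : q * f ≠ ⊥ := mul_ne_zero hq hψ.ne
    refine ⟨hqf, ?_, m, hm, ?_⟩
    · change nn (q * f) ≤ nn f * X
      rw [nn_mul hb hR, mul_comm]
      exact Nat.mul_le_mul_left _ hqX
    · have h4 : ((∑ᶠ χ ∈ Dv 0 q, o m (t χ) : ℕ) : ℝ) ≤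
          ((∑ᶠ θ ∈ Dv m (q * f), o m θ : ℕ) : ℝ) := by
        exact_mod_cast tw_sum_dvM hb hcls hfp hR hC hψ ht (o m) hq
      refine lt_of_le_of_lt ?_ (lt_of_lt_of_le hlt h4)
      have hq1 : (1 : ℝ) ≤ nn q := by exact_mod_cast nn_pos hb hR hq
      have h5 : nm (q * f) = (nn q : ℝ) * nn f := by
        rw [nm_eq, nn_mul hb hR, Nat.cast_mul]
      have h6 := bnd_le hε hε1 hq1 hN1
      have h7 := bnd_leM hε hε1 hm (x := (nn q : ℝ) * nn f) (by nlinarith)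
      change C * bnd ε m (nm (q * f)) ≤ 2 * m * C * (nn f : ℝ) * nm q ^ (2 / 3 + ε)
      rw [h5, nm_eq]
      calc C * bnd ε m ((nn q : ℝ) * nn f) ≤ C * (m * (2 * nn f * (nn q : ℝ) ^ (2 / 3 + ε))) := by
            refine mul_le_mul_of_nonneg_left (h7.trans ?_) hC'.le
            exact mul_le_mul_of_nonneg_left h6 (by linarith)
        _ = _ := by ring
  have hinj : Set.InjOn (fun q : Ideal R => q * f) B := by
    intro q _ q' _ h
    exact mul_right_cancel₀ (show f ≠ 0 from hψ.ne) h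
  refine ⟨Set.Finite.of_injOn hmaps hinj h2, ?_⟩
  have h4 : (B.ncard : ℝ) ≤ S.ncard := by
    exact_mod_cast Set.ncard_le_ncard_of_injOn _ hmaps hinj h2
  have h8 : Real.exp (-c * cr (nn f * X)) ≤ Real.exp (-c * cr X) := by
    refine Real.exp_le_exp.2 ?_
    have := cr_mono hX (Nat.le_mul_of_pos_left X hN)
    nlinarith
  calc (B.ncard : ℝ) ≤ S.ncard := h4
    _ ≤ C * ((nn f * X : ℕ) : ℝ) * Real.exp (-c * cr (nn f * X)) := h3
    _ ≤ C * ((nn f * X : ℕ) : ℝ) * Real.exp (-c * cr X) := by gcongr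
    _ = C * (nn f : ℝ) * X * Real.exp (-c * cr X) := by
        rw [Nat.cast_mul]
        ring
    _ ≤ 2 * m * C * (nn f : ℝ) * X * Real.exp (-c * cr X) := by
        have h9 : 0 ≤ C * (nn f : ℝ) * X * Real.exp (-c * cr X) := by positivity
        nlinarith

end Pool.Agent.X284.HB
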