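import Pool.Agent.X284.HB.Tw

/-!
The bounds for the twists of Hecke characters of infinity type `(2 j - 1, 0)`, uniformly for `j ≤ m`.
-/

set_option autoImplicit false

open Complex Filter Topology

namespace Pool.Agent.X284.HB

open Pool.Agent.W192.HK Pool.Agent.Y683.AA

variable {R : Subring ℂ} {ω : ℂ}

/-- **(A)**, uniformly for `j ≤ m` -/
theorem avg_unif (hb : H_BASIC) (hcls : H_CLS) (hfp : H_FP) (hdivr : H_DIVR) (hR : QR R ω)
    {C0 : ℝ} (hC : IdCount R C0) {K : ℝ} {o : ℕ → (Ideal R → ℂ) → ℕ} (ho : GHk R K o)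
    (m : ℕ) :
    ∃ C c : ℝ, 0 < C ∧ 0 < c ∧ ∀ j : ℕ, 1 ≤ j → j ≤ m →
      ∀ (σ : ℂ →+* ℂ) (f : Ideal R) (ψ : Ideal R → ℂ)
      (t : (Ideal R → ℂ) → Ideal R → ℂ), Imp (2 * j - 1) f ψ → TwM j σ f ψ t → ∀ X : ℕ, 1 ≤ X →
        ((∑ᶠ χ ∈ Hk R 0 X, o j (t χ) : ℕ) : ℝ) ≤
          C * (nn f : ℝ) ^ 3 * Real.exp (-c * cr X) * (Set.ncard (Hk R 0 X) : ℝ) := by
  induction m with
  | zero => exact ⟨1, 1, one_pos, one_pos, fun j h1 h2 => by omega⟩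
  | succ m ih =>
    obtain ⟨C1, c1, hC1, hc1, h1⟩ := ih
    obtain ⟨C2, c2, hC2, hc2, h2⟩ := tw_avgM hb hcls hfp hdivr hR hC ho (m + 1) (by omega)
    refine ⟨C1 + C2, min c1 c2, by positivity, lt_min hc1 hc2, fun j hj hjm σ f ψ t hψ ht X hX => ?_⟩
    have hcr := cr_nonneg X
    have hcard : (0 : ℝ) ≤ (Set.ncard (Hk R 0 X) : ℝ) := Nat.cast_nonneg _
    have hN : (0 : ℝ) ≤ (nn f : ℝ) ^ 3 := by positivity
    rcases Nat.lt_or_ge m j with h | h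
    · obtain rfl : j = m + 1 := by omega
      refine (h2 σ f ψ t hψ ht X hX).trans ?_
      have h3 : Real.exp (-c2 * cr X) ≤ Real.exp (-(min c1 c2) * cr X) := by
        refine Real.exp_le_exp.2 ?_
        nlinarith [min_le_right c1 c2]
      gcongr
      linarith
    · refine (h1 j hj h σ f ψ t hψ ht X hX).trans ?_
      have h3 : Real.exp (-c1 * cr X) ≤ Real.exp (-(min c1 c2) * cr X) := by
        refine Real.exp_le_exp.2 ?_
        nlinarith [min_le_left c1 c2]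
      gcongr
      linarith

lemma bdt_mono {X : ℕ} {D D' ε : ℝ} (h : D ≤ D') (o : (Ideal R → ℂ) → ℕ) :
    Bdt X D' ε o ⊆ Bdt X D ε o := by
  rintro q ⟨h1, h2, h3⟩
  refine ⟨h1, h2, lt_of_le_of_lt ?_ h3⟩
  have : 0 ≤ nm q ^ (2 / 3 + ε) := Real.rpow_nonneg (Nat.cast_nonneg _) _
  exact mul_le_mul_of_nonneg_right h this

/-- **(B)**, uniformly for `j ≤ m` -/
theorem pw_unif (hb : H_BASIC) (hcls : H_CLS) (hfp : H_FP) (hdivr : H_DIVR) (hR : QR R ω)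
    {C0 : ℝ} (hC : IdCount R C0) {K : ℝ} {o : ℕ → (Ideal R → ℂ) → ℕ} (ho : GHk R K o) {ε : ℝ}
    (hε : 0 < ε) (hε1 : ε ≤ 1 / 3) (m : ℕ) :
    ∃ C c : ℝ, 0 < C ∧ 0 < c ∧ ∀ j : ℕ, 1 ≤ j → j ≤ m →
      ∀ (σ : ℂ →+* ℂ) (f : Ideal R) (ψ : Ideal R → ℂ)
      (t : (Ideal R → ℂ) → Ideal R → ℂ), Imp (2 * j - 1) f ψ → TwM j σ f ψ t → ∀ X : ℕ, 1 ≤ X →
        (Bdt X (C * (nn f : ℝ)) ε (fun χ => o j (t χ))).Finite ∧
        ((Bdt X (C * (nn f : ℝ)) ε (fun χ => o j (t χ))).ncard : ℝ) ≤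
          C * (nn f : ℝ) * X * Real.exp (-c * cr X) := by
  induction m with
  | zero => exact ⟨1, 1, one_pos, one_pos, fun j h1 h2 => by omega⟩
  | succ m ih =>
    obtain ⟨C1, c1, hC1, hc1, h1⟩ := ih
    obtain ⟨C2, c2, hC2, hc2, h2⟩ := tw_pwM hb hcls hfp hdivr hR hC ho hε hε1 (m + 1) (by omega)
    refine ⟨C1 + C2, min c1 c2, by positivity, lt_min hc1 hc2, fun j hj hjm σ f ψ t hψ ht X hX => ?_⟩
    have hcr := cr_nonneg X
    have hN : (0 : ℝ) ≤ (nn f : ℝ) := Nat.cast_nonneg _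
    have hX0 : (0 : ℝ) ≤ (X : ℝ) := Nat.cast_nonneg _
    rcases Nat.lt_or_ge m j with h | h
    · obtain rfl : j = m + 1 := by omega
      obtain ⟨h3, h4⟩ := h2 σ f ψ t hψ ht X hX
      have hsub : Bdt X ((C1 + C2) * (nn f : ℝ)) ε (fun χ => o (m + 1) (t χ)) ⊆
          Bdt X (C2 * (nn f : ℝ)) ε (fun χ => o (m + 1) (t χ)) := bdt_mono (by nlinarith) _
      refine ⟨h3.subset hsub, ?_⟩
      have h5 : Real.exp (-c2 * cr X) ≤ Real.exp (-(min c1 c2) * cr X) := by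
        refine Real.exp_le_exp.2 ?_
        nlinarith [min_le_right c1 c2]
      have h6 : ((Bdt X ((C1 + C2) * (nn f : ℝ)) ε (fun χ => o (m + 1) (t χ))).ncard : ℝ) ≤
          ((Bdt X (C2 * (nn f : ℝ)) ε (fun χ => o (m + 1) (t χ))).ncard : ℝ) := by
        exact_mod_cast Set.ncard_le_ncard hsub h3
      refine (h6.trans h4).trans ?_
      gcongr
      linarith
    · obtain ⟨h3, h4⟩ := h1 j hj h σ f ψ t hψ ht X hX
      have hsub : Bdt X ((C1 + C2) * (nn f : ℝ)) ε (fun χ => o j (t χ)) ⊆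
          Bdt X (C1 * (nn f : ℝ)) ε (fun χ => o j (t χ)) := bdt_mono (by nlinarith) _
      refine ⟨h3.subset hsub, ?_⟩
      have h5 : Real.exp (-c1 * cr X) ≤ Real.exp (-(min c1 c2) * cr X) := by
        refine Real.exp_le_exp.2 ?_
        nlinarith [min_le_left c1 c2]
      have h6 : ((Bdt X ((C1 + C2) * (nn f : ℝ)) ε (fun χ => o j (t χ))).ncard : ℝ) ≤
          ((Bdt X (C1 * (nn f : ℝ)) ε (fun χ => o j (t χ))).ncard : ℝ) := by
        exact_mod_cast Set.ncard_le_ncard hsub h3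
      refine (h6.trans h4).trans ?_
      gcongr
      linarith

end Pool.Agent.X284.HB
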